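import Pool.Agent.H559.RW.Win

set_option autoImplicit false

/-! # Record windows of the random primes: the asymptotic formula -/

open Finset Filter Topology
open Pool.Agent.T2H32.BF (V V_pos V_anti)
open Pool.Agent.H559.BS (Limit log_top)
open Pool.Agent.H559.HY (RS Cut)
open Pool.Agent.H559.SI (pS)
open Pool.Agent.H559.UH (piH MF form)
open Pool.Agent.Y879.PR (Adm Rh adm_le free_class)

namespace Pool.Agent.H559.RW

theorem z_top (z : ℕ → ℕ) (hz : Limit z) : Tendsto z atTop atTop := by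
  rw [tendsto_atTop]
  intro m
  filter_upwards [hz.2.eventually_lt_const (show (1 : ℝ) < 2 by norm_num), log_top.eventually_ge_atTop (2 / V m)] with v h5 h6
  by_contra h7
  push Not at h7
  have h8 : V m ≤ V (z v) := V_anti h7.le
  have h9 := V_pos m
  rw [div_le_iff₀ h9] at h6
  have h10 : 0 ≤ Real.log v := Real.log_natCast_nonneg v
  nlinarith

theorem W_top (W : ℕ → ℕ) (hW : Cut W) : Tendsto W atTop atTop := by
  have h2 := hW.top.atTop_mul_atTop₀ log_top
  have h1 : Tendsto (fun n : ℕ => (W n : ℝ)) atTop atTop := by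
    refine h2.congr' ?_
    filter_upwards [log_top.eventually_ge_atTop 1] with n hn
    rw [div_mul_cancel₀ _ (by linarith : Real.log n ≠ 0)]
  exact tendsto_natCast_atTop_iff.1 h1

theorem rough (z W : ℕ → ℕ) (hz : Limit z) (hW : Cut W) (b : ℕ → ℕ) (y : ℕ) : ∃ x0, Rough (RS z W b) y x0 := by
  have h := ((z_top z hz).eventually_ge_atTop y).and ((W_top W hW).eventually_ge_atTop y)
  obtain ⟨x0, hx0⟩ := eventually_atTop.1 h
  refine ⟨x0, fun v hv hlt q hq hqy hd => ?_⟩
  obtain ⟨h1, h2⟩ := hx0 v hlt.le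
  have h3 := hv.2 q (by omega) hq
  rw [if_pos (by omega)] at h3
  exact h3 (Nat.dvd_iff_mod_eq_zero.1 hd)

theorem log_small (k : ℕ) : Tendsto (fun X : ℕ => Real.log X ^ k / (X : ℝ)) atTop (𝓝 0) := by
  have h := (Real.isLittleO_pow_log_id_atTop (n := k)).tendsto_div_nhds_zero
  exact h.comp tendsto_natCast_atTop_atTop

/-- the patterns -/
theorem piH_lim (T : Set ℕ) (hT : MF T) (H : Finset ℕ) (hne : H.Nonempty) (hadm : Pool.Agent.H559.UH.Adm H) (S : ℝ)
    (hS : Tendsto (pS H) atTop (𝓝 S)) (hS0 : 0 < S) :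
    Tendsto (fun X : ℕ => (piH T H X : ℝ) * (Real.log X ^ H.card / X)) atTop (𝓝 S) := by
  rw [Metric.tendsto_nhds]
  intro ε hε
  set M := H.max' hne with hM
  have hM2 : ∀ᶠ X : ℕ in atTop, (M : ℝ) ≤ (X : ℝ) ^ ((1 : ℝ) - 1 / 2) :=
    ((tendsto_rpow_atTop (by norm_num)).comp tendsto_natCast_atTop_atTop).eventually_ge_atTop (M : ℝ)
  filter_upwards [form T hT H.card (1 / 2) (ε / (2 * S)) (by norm_num) (by positivity), hM2, eventually_ge_atTop 1]
    with X h1 h2 h3
  have hX : (0 : ℝ) < X := by exact_mod_cast h3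
  have h4 := h1 H rfl hne (fun h hh => le_trans (by exact_mod_cast H.le_max' h hh) h2) hadm S hS hS0
  rw [Real.dist_eq]
  have e : (piH T H X : ℝ) * (Real.log X ^ H.card / X) - S =
      S * ((piH T H X : ℝ) * Real.log X ^ H.card / (S * X) - 1) := by
    field_simp
  rw [e, abs_mul, abs_of_pos hS0]
  calc S * |(piH T H X : ℝ) * Real.log X ^ H.card / (S * X) - 1| ≤ S * (ε / (2 * S)) := mul_le_mul_of_nonneg_left h4 hS0.le
    _ = ε / 2 := by field_simp
    _ < ε := by linarith

theorem nw_lim (T : Set ℕ) (hT : MF T) (y x0 : ℕ) (hy : 1 ≤ y) (hr : Rough T y x0) (SS : Finset ℕ → ℝ)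
    (hSS : ∀ H, Tendsto (pS H) atTop (𝓝 (SS H)) ∧ (Pool.Agent.H559.UH.Adm H → 0 < SS H)) :
    Tendsto (fun X : ℕ => (nw T y (Rh y) X : ℝ) * (Real.log X ^ Rh y / X)) atTop (𝓝 (∑ S ∈ mx y, SS S)) := by
  classical
  have h1 : Tendsto (fun X : ℕ => ∑ S ∈ mx y, (piH T S X : ℝ) * (Real.log X ^ Rh y / X)) atTop (𝓝 (∑ S ∈ mx y, SS S)) := by
    refine tendsto_finsetSum _ fun S hS => ?_
    obtain ⟨_, h3, h4⟩ := mem_filter.1 hS
    have h5 := adm_adm S h3
    have h6 : S.Nonempty := by
      rw [← card_pos, h4]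
      exact Rh_pos y hy
    have h7 := piH_lim T hT S h6 h5 (SS S) (hSS S).1 ((hSS S).2 h5)
    rw [h4] at h7
    exact h7
  set K : ℕ := (mx y).card * (x0 + y + 1) + (x0 + y + 1) with hK
  have h2 := (log_small (Rh y)).const_mul (K : ℝ)
  rw [mul_zero] at h2
  have hlo := h1.sub h2
  have hup := h1.add h2
  rw [sub_zero] at hlo
  rw [add_zero] at hup
  refine tendsto_of_tendsto_of_tendsto_of_le_of_le' hlo hup ?_ ?_
  · filter_upwards [eventually_ge_atTop (x0 + y)] with X hX
    have h3 := (nw_near T y x0 X hr hX).2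
    have h4 : (∑ S ∈ mx y, (piH T S X : ℝ)) ≤ (nw T y (Rh y) X : ℝ) + K := by
      have : ((∑ S ∈ mx y, piH T S X : ℕ) : ℝ) ≤ ((nw T y (Rh y) X + K : ℕ) : ℝ) := by
        exact_mod_cast (by omega : ∑ S ∈ mx y, piH T S X ≤ nw T y (Rh y) X + K)
      push_cast at this
      exact this
    have h5 : 0 ≤ Real.log X ^ Rh y / (X : ℝ) := by
      have := Real.log_natCast_nonneg X
      positivity
    rw [← sum_mul, ← sub_mul]
    exact mul_le_mul_of_nonneg_right (by linarith) h5
  · filter_upwards [eventually_ge_atTop (x0 + y)] with X hX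
    have h3 := (nw_near T y x0 X hr hX).1
    have h4 : (nw T y (Rh y) X : ℝ) ≤ (∑ S ∈ mx y, (piH T S X : ℝ)) + K := by
      have : ((nw T y (Rh y) X : ℕ) : ℝ) ≤ ((∑ S ∈ mx y, piH T S X + K : ℕ) : ℝ) := by
        exact_mod_cast (by omega : nw T y (Rh y) X ≤ ∑ S ∈ mx y, piH T S X + K)
      push_cast at this
      exact this
    have h5 : 0 ≤ Real.log X ^ Rh y / (X : ℝ) := by
      have := Real.log_natCast_nonneg X
      positivity
    rw [← sum_mul, ← add_mul]
    exact mul_le_mul_of_nonneg_right h4 h5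

theorem sum_pos' (y : ℕ) (SS : Finset ℕ → ℝ) (hSS : ∀ H, Pool.Agent.H559.UH.Adm H → 0 < SS H) : 0 < ∑ S ∈ mx y, SS S := by
  classical
  refine sum_pos (fun S hS => hSS S (adm_adm S ((mem_filter.1 hS).2.1))) (mx_ne y)

/-- eventually no window has more elements than the maximal admissible sets -/
theorem ev_le (T : Set ℕ) (y x0 : ℕ) (hr : Rough T y x0) : ∀ᶠ x : ℕ in atTop, wc T x y ≤ Rh y := by
  filter_upwards [eventually_ge_atTop x0] with x hx
  rw [wc_eq]
  exact U_le T y x0 (x + y) hr (by omega)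

/-- windows with so many elements occur again and again -/
theorem fr_ge (T : Set ℕ) (hT : MF T) (y x0 : ℕ) (hr : Rough T y x0) (SS : Finset ℕ → ℝ)
    (hSS : ∀ H, Tendsto (pS H) atTop (𝓝 (SS H)) ∧ (Pool.Agent.H559.UH.Adm H → 0 < SS H)) :
    ∃ᶠ x : ℕ in atTop, Rh y ≤ wc T x y := by
  rcases Nat.eq_zero_or_pos y with hy | hy
  · subst hy
    refine Eventually.frequently (Eventually.of_forall fun x => ?_)
    have : Rh 0 = 0 := by
      unfold Rh
      simp
    rw [this]
    exact Nat.zero_le _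
  · by_contra hcon
    rw [not_frequently] at hcon
    obtain ⟨N, hN⟩ := eventually_atTop.1 hcon
    have h1 := nw_lim T hT y x0 hy hr SS hSS
    have h2 := sum_pos' y SS (fun H h => (hSS H).2 h)
    have h3 : ∀ X, nw T y (Rh y) X ≤ N := by
      intro X
      unfold nw
      have h4 : {x : ℕ | x + y ≤ X ∧ wc T x y = Rh y} ⊆ ((range N : Finset ℕ) : Set ℕ) := by
        rintro x ⟨_, h6⟩
        rw [Finset.mem_coe, mem_range]
        by_contra h7
        exact hN x (by omega) h6.ge
      refine (Set.ncard_le_ncard h4 (Finset.finite_toSet _)).trans ?_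
      rw [Set.ncard_coe_finset, card_range]
    have h4 := (log_small (Rh y)).const_mul (N : ℝ)
    rw [mul_zero] at h4
    have h5 := le_of_tendsto_of_tendsto h1 h4 (Eventually.of_forall fun X => by
      have h6 : 0 ≤ Real.log X ^ Rh y / (X : ℝ) := by
        have := Real.log_natCast_nonneg X
        positivity
      exact mul_le_mul_of_nonneg_right (by exact_mod_cast h3 X) h6)
    linarith

/-- the function of Hardy and Littlewood is the maximal admissible function -/
theorem limsup_eq (T : Set ℕ) (hT : MF T) (y x0 : ℕ) (hr : Rough T y x0) (SS : Finset ℕ → ℝ)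
    (hSS : ∀ H, Tendsto (pS H) atTop (𝓝 (SS H)) ∧ (Pool.Agent.H559.UH.Adm H → 0 < SS H)) :
    limsup (fun x : ℕ => wc T x y) atTop = Rh y := by
  have h1 := ev_le T y x0 hr
  have h2 := fr_ge T hT y x0 hr SS hSS
  have hb : IsBoundedUnder (· ≤ ·) atTop (fun x : ℕ => wc T x y) := ⟨Rh y, by
    rw [eventually_map]
    exact h1⟩
  refine le_antisymm (limsup_le_of_le ⟨0, fun a _ => Nat.zero_le a⟩ h1) ?_
  exact le_limsup_of_frequently_le h2 hb

end Pool.Agent.H559.RW
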