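import Pool.Agent.H559.UH.Fin
import Pool.Agent.H559.SI.Cons
import Pool.Graph.R_seed8.Y879.PR.Win

set_option autoImplicit false

/-! # Record windows of the random primes -/

open Finset Filter Topology
open Pool.Agent.T2H32.BF (V V_pos V_anti)
open Pool.Agent.H559.BS (Limit log_top)
open Pool.Agent.H559.HY (RS Cut)
open Pool.Agent.H559.SI (pS)
open Pool.Agent.H559.UH (piH MF form)
open Pool.Agent.Y879.PR (Adm Rh adm_le free_class)

namespace Pool.Agent.H559.RW

/-- the number of the elements of `T` in `(x, x + y]` -/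
noncomputable def wc (T : Set ℕ) (x y : ℕ) : ℕ := {v : ℕ | x < v ∧ v ≤ x + y ∧ v ∈ T}.ncard

open Classical in
/-- the pattern of the window which ends at `p` -/
noncomputable def U (T : Set ℕ) (y p : ℕ) : Finset ℕ := (range y).filter (fun h => h < p ∧ p - h ∈ T)

theorem wc_eq (T : Set ℕ) (x y : ℕ) : wc T x y = (U T y (x + y)).card := by
  classical
  unfold wc
  rw [← Set.ncard_coe_finset]
  refine Set.ncard_congr (fun v _ => x + y - v) ?_ ?_ ?_
  · rintro v ⟨h1, h2, h3⟩
    simp only [U, coe_filter, mem_range, Set.mem_ofPred_eq]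
    refine ⟨by omega, by omega, ?_⟩
    have e : x + y - (x + y - v) = v := by omega
    rw [e]
    exact h3
  · rintro v v' ⟨_, h2, _⟩ ⟨_, h4, _⟩ h5
    omega
  · intro h hh
    simp only [U, coe_filter, mem_range, Set.mem_ofPred_eq] at hh
    obtain ⟨h1, h2, h3⟩ := hh
    exact ⟨x + y - h, ⟨by omega, by omega, h3⟩, by omega⟩

/-- the elements of `T` above `x0` have no prime factor `≤ y` -/
def Rough (T : Set ℕ) (y x0 : ℕ) : Prop := ∀ v ∈ T, x0 < v → ∀ q : ℕ, q.Prime → q ≤ y → ¬ q ∣ v

theorem U_adm (T : Set ℕ) (y x0 p : ℕ) (hT : Rough T y x0) (hp : x0 + y ≤ p) : Adm (U T y p) := by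
  classical
  intro q hq
  by_cases hqy : q ≤ y
  · refine ⟨(q - 1) * p, fun h hh hd => ?_⟩
    simp only [U, mem_filter, mem_range] at hh
    obtain ⟨h1, h2, h3⟩ := hh
    refine hT (p - h) h3 (by omega) q hq hqy ?_
    have e : (q - 1) * p + h + (p - h) = q * p := by
      obtain ⟨t, rfl⟩ : ∃ t, q = t + 1 := ⟨q - 1, by have := hq.pos; omega⟩
      rw [Nat.add_sub_cancel, Nat.add_mul, one_mul]
      omega
    exact (Nat.dvd_add_right hd).1 (by rw [e]; exact Dvd.intro _ rfl)
  · refine free_class q _ ?_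
    have h1 : (U T y p).card ≤ y := by
      unfold U
      refine (card_filter_le _ _).trans ?_
      rw [card_range]
    omega

theorem U_sub (T : Set ℕ) (y p : ℕ) : U T y p ⊆ range y := by
  classical
  unfold U
  exact filter_subset _ _

theorem U_le (T : Set ℕ) (y x0 p : ℕ) (hT : Rough T y x0) (hp : x0 + y ≤ p) : (U T y p).card ≤ Rh y :=
  adm_le (U_sub T y p) (U_adm T y x0 p hT hp)

theorem adm_adm (S : Finset ℕ) (h : Adm S) : Pool.Agent.H559.UH.Adm S := by
  classical
  intro p hp
  obtain ⟨a, ha⟩ := h p hp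
  have h1 : S.image (· % p) ⊆ (range p).erase ((p - a % p) % p) := by
    intro r hr
    rw [mem_image] at hr
    obtain ⟨s, hs, rfl⟩ := hr
    rw [mem_erase, mem_range]
    refine ⟨fun h2 => ha s hs ?_, Nat.mod_lt _ hp.pos⟩
    have h3 : s % p = (p - a % p) % p := h2
    have h4 := Nat.mod_lt a hp.pos
    rw [Nat.dvd_iff_mod_eq_zero, Nat.add_mod, h3, Nat.add_mod_mod]
    have e : a % p + (p - a % p) = p := by omega
    rw [e, Nat.mod_self]
  have h2 := card_le_card h1
  rw [card_erase_of_mem (mem_range.2 (Nat.mod_lt _ hp.pos)), card_range] at h2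
  have := hp.pos
  omega

open Classical in
/-- the maximal admissible sets -/
noncomputable def mx (y : ℕ) : Finset (Finset ℕ) := (range y).powerset.filter (fun S => Adm S ∧ S.card = Rh y)

theorem mx_ne (y : ℕ) : (mx y).Nonempty := by
  classical
  have hne : ((range y).powerset.filter Adm).Nonempty :=
    ⟨∅, mem_filter.2 ⟨by simp, fun q _ => ⟨0, by simp⟩⟩⟩
  obtain ⟨S, hS, hSc⟩ := Finset.exists_mem_eq_sup _ hne Finset.card
  obtain ⟨hS1, hS2⟩ := mem_filter.1 hS
  exact ⟨S, mem_filter.2 ⟨hS1, hS2, hSc.symm⟩⟩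

theorem Rh_pos (y : ℕ) (hy : 1 ≤ y) : 1 ≤ Rh y := by
  have h1 : ({0} : Finset ℕ).card ≤ Rh y := adm_le (by
    intro i hi
    rw [mem_singleton] at hi
    rw [mem_range]
    omega) (fun q hq => ⟨1, fun s hs hd => by
      rw [mem_singleton] at hs
      rw [hs] at hd
      have := Nat.le_of_dvd one_pos hd
      have := hq.two_le
      omega⟩)
  rwa [card_singleton] at h1

/-- the number of the windows `(x, x + y]` inside `(0, X]` with `r` elements -/
noncomputable def nw (T : Set ℕ) (y r X : ℕ) : ℕ := {x : ℕ | x + y ≤ X ∧ wc T x y = r}.ncard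

open Classical in
theorem nw_near (T : Set ℕ) (y x0 X : ℕ) (hT : Rough T y x0) (hX : x0 + y ≤ X) :
    nw T y (Rh y) X ≤ (∑ S ∈ mx y, piH T S X) + (x0 + y + 1) ∧
      ∑ S ∈ mx y, piH T S X ≤ nw T y (Rh y) X + (mx y).card * (x0 + y + 1) := by
  set M := x0 + y with hM
  set P : Finset ℕ := (Ioc M X).filter (fun p => (U T y p).card = Rh y) with hP
  set F : Finset ℕ → Finset ℕ := fun S => (Ioc M X).filter (fun p => U T y p = S) with hF
  -- the fibres
  have hsum : P.card = ∑ S ∈ mx y, (F S).card := by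
    have h1 : ∀ p ∈ P, U T y p ∈ mx y := by
      intro p hp
      rw [hP, mem_filter, mem_Ioc] at hp
      unfold mx
      rw [mem_filter, mem_powerset]
      exact ⟨U_sub T y p, U_adm T y x0 p hT (by omega), hp.2⟩
    rw [card_eq_sum_card_fiberwise h1]
    refine sum_congr rfl fun S hS => ?_
    congr 1
    ext p
    rw [hP, hF]
    simp only [mem_filter]
    constructor
    · rintro ⟨⟨h2, _⟩, h4⟩
      exact ⟨h2, h4⟩
    · rintro ⟨h2, h3⟩
      refine ⟨⟨h2, ?_⟩, h3⟩
      rw [h3]
      exact ((mem_filter.1 hS).2).2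
  -- the windows
  have hA1 : nw T y (Rh y) X ≤ P.card + (M + 1) := by
    unfold nw
    have h1 : (fun x => x + y) '' {x : ℕ | x + y ≤ X ∧ wc T x y = Rh y} ⊆ ((P ∪ range (M + 1) : Finset ℕ) : Set ℕ) := by
      rintro p ⟨x, ⟨h2, h3⟩, rfl⟩
      rw [Finset.mem_coe, mem_union]
      rw [wc_eq] at h3
      by_cases h4 : x + y ≤ M
      · right
        rw [mem_range]
        dsimp only
        omega
      · left
        rw [hP, mem_filter, mem_Ioc]
        exact ⟨⟨by dsimp only; omega, h2⟩, h3⟩
    rw [← Set.ncard_image_of_injective _ (add_left_injective y)]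
    refine (Set.ncard_le_ncard h1 (Finset.finite_toSet _)).trans ?_
    rw [Set.ncard_coe_finset]
    refine (card_union_le _ _).trans ?_
    rw [card_range]
  have hA2 : P.card ≤ nw T y (Rh y) X := by
    unfold nw
    have h1 : (P : Set ℕ) ⊆ (fun x => x + y) '' {x : ℕ | x + y ≤ X ∧ wc T x y = Rh y} := by
      intro p hp
      rw [Finset.mem_coe, hP, mem_filter, mem_Ioc] at hp
      have e : p - y + y = p := by omega
      refine ⟨p - y, ⟨by omega, ?_⟩, e⟩
      rw [wc_eq, e]
      exact hp.2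
    rw [← Set.ncard_image_of_injective _ (add_left_injective y), ← Set.ncard_coe_finset]
    refine Set.ncard_le_ncard h1 (Set.Finite.image _ ?_)
    exact (Set.finite_Iic X).subset fun x hx => (by have := hx.1; exact (by omega : x ≤ X))
  -- the patterns
  have hB1 : ∀ S ∈ mx y, (F S).card ≤ piH T S X := by
    intro S hS
    unfold piH
    rw [← Set.ncard_coe_finset]
    refine Set.ncard_le_ncard ?_ ((Set.finite_Iic X).subset fun p hp => hp.1)
    intro p hp
    rw [Finset.mem_coe, hF, mem_filter, mem_Ioc] at hp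
    refine ⟨hp.1.2, fun h hh => ?_⟩
    rw [← hp.2] at hh
    simp only [U, mem_filter] at hh
    exact hh.2
  have hB2 : ∀ S ∈ mx y, piH T S X ≤ (F S).card + (M + 1) := by
    intro S hS
    unfold mx at hS
    rw [mem_filter, mem_powerset] at hS
    unfold piH
    have h1 : {p : ℕ | p ≤ X ∧ ∀ h ∈ S, h < p ∧ p - h ∈ T} ⊆ ((F S ∪ range (M + 1) : Finset ℕ) : Set ℕ) := by
      rintro p ⟨h2, h3⟩
      rw [Finset.mem_coe, mem_union]
      by_cases h4 : p ≤ M
      · right
        rw [mem_range]
        omega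
      · left
        rw [hF, mem_filter, mem_Ioc]
        refine ⟨⟨by omega, h2⟩, ?_⟩
        have h5 : S ⊆ U T y p := by
          intro h hh
          simp only [U, mem_filter]
          exact ⟨hS.1 hh, h3 h hh⟩
        exact (eq_of_subset_of_card_le h5 (by
          rw [hS.2.2]
          exact U_le T y x0 p hT (by omega))).symm
    refine (Set.ncard_le_ncard h1 (Finset.finite_toSet _)).trans ?_
    rw [Set.ncard_coe_finset]
    refine (card_union_le _ _).trans ?_
    rw [card_range]
  constructor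
  · have : ∑ S ∈ mx y, (F S).card ≤ ∑ S ∈ mx y, piH T S X := sum_le_sum hB1
    omega
  · calc ∑ S ∈ mx y, piH T S X ≤ ∑ S ∈ mx y, ((F S).card + (M + 1)) := sum_le_sum hB2
      _ = ∑ S ∈ mx y, (F S).card + (mx y).card * (M + 1) := by
        rw [sum_add_distrib, sum_const, smul_eq_mul]
      _ ≤ _ := by omega

end Pool.Agent.H559.RW
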